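import Pool.Agent.helper99.PLR.Spec

/-!
# plr:PRK: counting the members above a family of subsets of `S`
-/

set_option autoImplicit false
set_option linter.unusedVariables false

open scoped Classical

namespace Pool.Agent.PLR

open Finset
open Pool.Agent.helper65.HC (V IsEig IsTop lam)
open Pool.Agent.helper9.HQ (Fam Dn E N Le Eig lk)
open Pool.Agent.helper9.HX (Ef)
open Pool.Agent.helper9.HLR (cel Lc)

noncomputable section

theorem PRK_star (d k : ℕ) (hk : 1 ≤ k) (i : Fin d) :
    (univ.filter fun x : Finset (Fin d) => x.card = k ∧ i ∈ x).card ≤ (d - 1).choose (k - 1) := by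
  have h1 : ((univ.erase i : Finset (Fin d)).powersetCard (k - 1)).card = (d - 1).choose (k - 1) := by
    rw [card_powersetCard, card_erase_of_mem (mem_univ i), card_univ, Fintype.card_fin]
  rw [← h1]
  refine card_le_card_of_injOn (fun x => x.erase i) ?_ ?_
  · intro x hx
    have hx' := (mem_filter.1 (mem_coe.1 hx)).2
    refine mem_coe.2 (mem_powersetCard.2 ⟨erase_subset_erase i (subset_univ x), ?_⟩)
    rw [card_erase_of_mem hx'.2, hx'.1]
  · intro x hx y hy hxy
    have hx' := (mem_filter.1 (mem_coe.1 hx)).2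
    have hy' := (mem_filter.1 (mem_coe.1 hy)).2
    have h2 : x.erase i = y.erase i := hxy
    rw [← insert_erase hx'.2, ← insert_erase hy'.2, h2]

theorem PRK_meet (d k : ℕ) (hk : 1 ≤ k) (S : Finset (Fin d)) :
    (univ.filter fun x : Finset (Fin d) => x.card = k ∧ ¬ Disjoint x S).card ≤ S.card * (d - 1).choose (k - 1) := by
  have h1 : (univ.filter fun x : Finset (Fin d) => x.card = k ∧ ¬ Disjoint x S) ⊆
      S.biUnion fun i => univ.filter fun x : Finset (Fin d) => x.card = k ∧ i ∈ x := by
    intro x hx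
    obtain ⟨hk', hd⟩ := (mem_filter.1 hx).2
    obtain ⟨i, hix, hiS⟩ := not_disjoint_iff.1 hd
    exact mem_biUnion.2 ⟨i, hiS, mem_filter.2 ⟨mem_univ x, hk', hix⟩⟩
  refine (card_le_card h1).trans (card_biUnion_le.trans ?_)
  refine (sum_le_sum fun i _ => PRK_star d k hk i).trans (le_of_eq ?_)
  rw [sum_const, smul_eq_mul]

theorem PRK_sep {d : ℕ} {S w x : Finset (Fin d)} (hw : w ⊆ S) (hx : Disjoint x S) :
    (x ∪ w) ∩ S = w ∧ (x ∪ w) \ S = x := by
  constructor
  · ext i
    simp only [mem_inter, mem_union]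
    constructor
    · rintro ⟨h | h, hS⟩
      · exact absurd hS (disjoint_left.1 hx h)
      · exact h
    · intro h
      exact ⟨Or.inr h, hw h⟩
  · ext i
    simp only [mem_sdiff, mem_union]
    constructor
    · rintro ⟨h | h, hS⟩
      · exact h
      · exact absurd (hw h) hS
    · intro h
      exact ⟨Or.inl h, disjoint_left.1 hx h⟩

theorem PRK : PRK_stmt := by
  intro d k U C S hk hd hC
  have h1 : ∀ w ∈ C, upk k w U ≤
      (univ.filter fun x : Finset (Fin d) => Disjoint x S ∧ x ∪ w ∈ U).card + S.card * (d - 1).choose (k - 1) := by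
    intro w hw
    have h2 : (univ.filter fun x : Finset (Fin d) => x.card = k ∧ Disjoint x w ∧ x ∪ w ∈ U) ⊆
        (univ.filter fun x : Finset (Fin d) => Disjoint x S ∧ x ∪ w ∈ U) ∪
        (univ.filter fun x : Finset (Fin d) => x.card = k ∧ ¬ Disjoint x S) := by
      intro x hx
      obtain ⟨hk', -, hU⟩ := (mem_filter.1 hx).2
      by_cases hS : Disjoint x S
      · exact mem_union_left _ (mem_filter.2 ⟨mem_univ x, hS, hU⟩)
      · exact mem_union_right _ (mem_filter.2 ⟨mem_univ x, hk', hS⟩)
    unfold upk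
    exact (card_le_card h2).trans ((card_union_le _ _).trans (Nat.add_le_add_left (PRK_meet d k hk S) _))
  refine (sum_le_sum h1).trans ?_
  rw [sum_add_distrib, sum_const, smul_eq_mul]
  refine Nat.add_le_add_right ?_ _
  rw [← card_sigma]
  refine card_le_card_of_injOn (fun p => p.2 ∪ p.1) ?_ ?_
  · rintro ⟨w, x⟩ hp
    have hp' := (mem_sigma.1 (mem_coe.1 hp)).2
    exact mem_coe.2 (mem_filter.1 hp').2.2
  · rintro ⟨w, x⟩ hp ⟨w', x'⟩ hp' h
    have a := mem_sigma.1 (mem_coe.1 hp)
    have a' := mem_sigma.1 (mem_coe.1 hp')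
    have hx : Disjoint x S := (mem_filter.1 a.2).2.1
    have hx' : Disjoint x' S := (mem_filter.1 a'.2).2.1
    have hw := hC w a.1
    have hw' := hC w' a'.1
    have h2 : x ∪ w = x' ∪ w' := h
    obtain ⟨e1, e2⟩ := PRK_sep hw hx
    obtain ⟨e1', e2'⟩ := PRK_sep hw' hx'
    have e3 : w = w' := by rw [← e1, ← e1', h2]
    have e4 : x = x' := by rw [← e2, ← e2', h2]
    subst e3
    subst e4
    rfl

end

end Pool.Agent.PLR
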